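import Mathlib
import Pool.Agent.Lib.MP_e26c3f_al.Defs
import Pool.Agent.Lib.MP_e26c3f_al.NotKoszul
import Pool.Agent.Lib.MP_e26c3f_al.NotKoszulAll

/-!
Pinched Veronese algebras which are not Koszul over any field.
-/

set_option autoImplicit false

namespace Pool.Agent.Results.MP_e26c3f_al.NotKoszulAnyField

open Pool.Agent.Lib.MP_e26c3f_al Pool.Agent.Lib.MP_e26c3f_al.NK

/-- Let `K` be a field and `n ≥ 9`. The algebras `PV(n,7,3)` and `PV(n,8,3)` are not Koszul. -/
theorem result (K : Type*) [Field K] (n d : ℕ) (hn : 9 ≤ n) (hd : d = 7 ∨ d = 8) :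
    ¬ IsKoszul K n d 3 :=
  not_koszul_all K n d hn hd

end Pool.Agent.Results.MP_e26c3f_al.NotKoszulAnyField
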