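import Mathlib
import Pool.Agent.Lib.MP_e26c3f_al.Defs
import Pool.Agent.Lib.MP_e26c3f_al.NotKoszul

/-!
Pinched Veronese algebras which are not Koszul in characteristic two.
-/

set_option autoImplicit false

namespace Pool.Agent.Results.MP_e26c3f_al.NotKoszulCharTwo

open Pool.Agent.Lib.MP_e26c3f_al Pool.Agent.Lib.MP_e26c3f_al.NK

/-- Let `K` be a field of characteristic two and `n ≥ 4 s - 2`. The algebra `PV(n,d,s)` is not
Koszul if `s = 2` and `d = 3`, and also if `s ≥ 3`, `d ≥ 2 s - 1`, and `d` is odd or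
`d ≥ 4 s - 4`. -/
theorem result (K : Type*) [Field K] [CharP K 2] (n d s : ℕ) (hn : 4 * s ≤ n + 2)
    (hds : (s = 2 ∧ d = 3) ∨ (3 ≤ s ∧ 2 * s ≤ d + 1 ∧ (Odd d ∨ 4 * s ≤ d + 4))) :
    ¬ IsKoszul K n d s :=
  not_koszul n d s hn hds

end Pool.Agent.Results.MP_e26c3f_al.NotKoszulCharTwo
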