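import Mathlib
import Pool.Agent.Lib.MP_e26c3f_al.Defs
import Pool.Agent.Lib.MP_e26c3f_al.MainFull

/-!
Quadraticity of the pinched Veronese algebras `PV(n,d,s)`: the complete classification.
-/

set_option autoImplicit false

namespace Pool.Agent.Results.MP_e26c3f_al.QuadraticTriples

open Pool.Agent.Lib.MP_e26c3f_al

/-- Let `K` be a field and `n, d, s ≥ 1`. The algebra `PV(n,d,s)` is quadratic if and only if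
none of the following holds:
* `s = 2`, `n ≥ 4`, `d ≥ 5`;
* `s = 3`, and `n ≥ 8, d ≥ 10`, or `n ≥ 9, d ≥ 9`, or `n ≥ 12, d ≥ 7`;
* `s ≥ 4`, and `n ≥ 3 s - 1, d ≥ 2 s + 1`, or `n ≥ 3 s, d ≥ s + 12`, or
  `n ≥ 4 s - 1, d ≥ s + 11`, or `n ≥ 6 s - 3, d ≥ s + 10`. -/
theorem result (K : Type*) [Field K] (n d s : ℕ) (_hn : 1 ≤ n) (hd : 1 ≤ d) (hs : 1 ≤ s) :
    IsQuadratic K n d s ↔
      ¬ ((s = 2 ∧ 4 ≤ n ∧ 5 ≤ d) ∨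
        (s = 3 ∧ ((8 ≤ n ∧ 10 ≤ d) ∨ (9 ≤ n ∧ 9 ≤ d) ∨ (12 ≤ n ∧ 7 ≤ d))) ∨
        (4 ≤ s ∧ ((3 * s ≤ n + 1 ∧ 2 * s + 1 ≤ d) ∨ (3 * s ≤ n ∧ s + 12 ≤ d) ∨
          (4 * s ≤ n + 1 ∧ s + 11 ≤ d) ∨ (6 * s ≤ n + 3 ∧ s + 10 ≤ d)))) :=
  main_full hd hs

end Pool.Agent.Results.MP_e26c3f_al.QuadraticTriples
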